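import Pool.Agent.Results.MP_a1177c_nt.ProgressionCounts
import Pool.Agent.H442R2.KF.Bv

/-!
# Progressions of primes in residue classes: their exact order, for almost all moduli up to `x ^ (1/2 - ε)`

(helper751; the counting library `Y843.AC` is by helper843 and helpers 71, 872, 363; the theorem of Bombieri and
Vinogradov is from the starting files.)
-/

set_option autoImplicit false

namespace Pool.Agent.Results.MP_9cfc0a_nt.ProgressionCounts

open Finset

/-- The `n` in `[1, X]` for which `a + q n` is prime. -/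
def P (q a X : ℕ) : Finset ℕ := (Icc 1 X).filter (fun n => (a + q * n).Prime)

/-- `∏ (1 - 1/p)` over the primes `p ≤ X` which do not divide `q`. -/
noncomputable def V (q X : ℕ) : ℝ := ∏ p ∈ (Ioc 0 X).filter (fun p => p.Prime ∧ ¬ p ∣ q), (1 - 1 / (p : ℝ))

open Classical in
/-- The number of the progressions `b, b + d, …, b + (k - 1) d` in `S` with `1 ≤ d ≤ D`. -/
noncomputable def AP (k D : ℕ) (S : Finset ℕ) : ℕ :=
  ((S ×ˢ Icc 1 D).filter (fun q => ∀ j < k, q.1 + j * q.2 ∈ S)).card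

/-- The number of the primes `p ≤ x` with `p ≡ a` modulo `q`. -/
def piAP (x q a : ℕ) : ℕ := ((Icc 1 x).filter (fun p => p.Prime ∧ p ≡ a [MOD q])).card

open Classical in
/-- The moduli `q ≤ N ^ δ` for which some reduced class contains less than a quarter of `N / (φ(q) log N)`
primes up to `N`. -/
noncomputable def bad (δ : ℝ) (N : ℕ) : Finset ℕ :=
  (Icc 1 ⌊(N : ℝ) ^ δ⌋₊).filter (fun q => ∃ a : ℕ, a.Coprime q ∧
    (piAP N q a : ℝ) < N / (4 * (q.totient * Real.log N)))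

/-- the linear polynomial -/
def f (q a : ℕ) : Fin 1 → ℤ × ℤ × ℤ := fun _ => (0, (q : ℤ), (a : ℤ))

lemma val_f (q a n : ℕ) (i : Fin 1) :
    Pool.Agent.Results.MP_a1177c_nt.ProgressionCounts.val (f q a i) n = ((a + q * n : ℕ) : ℤ) := by
  unfold Pool.Agent.Results.MP_a1177c_nt.ProgressionCounts.val f
  push_cast
  ring

lemma dvd_f (q a n p : ℕ) (i : Fin 1) :
    (p : ℤ) ∣ Pool.Agent.Results.MP_a1177c_nt.ProgressionCounts.val (f q a i) n ↔ p ∣ a + q * n := by
  rw [val_f]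
  exact Int.natCast_dvd_natCast

lemma possible {q a : ℕ} (hq : 1 ≤ q) (ha : a.Coprime q) :
    Pool.Agent.Results.MP_a1177c_nt.ProgressionCounts.Possible (f q a) := by
  refine ⟨fun _ => Or.inr (by unfold f; show (q : ℤ) ≠ 0; exact_mod_cast (show q ≠ 0 by omega)),
    fun p hp => ?_⟩
  by_contra hcon
  push Not at hcon
  obtain ⟨i, hi⟩ := hcon 0
  obtain ⟨j, hj⟩ := hcon 1
  rw [dvd_f] at hi hj
  rw [mul_zero, add_zero] at hi
  rw [mul_one] at hj
  have h1 := (Nat.dvd_add_right hi).1 hj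
  have h2 := Nat.dvd_gcd hi h1
  rw [Nat.Coprime.gcd_eq_one ha] at h2
  exact hp.one_lt.ne' (Nat.dvd_one.1 h2)

lemma card_roots {q a : ℕ} (ha : a.Coprime q) {p : ℕ} (hp : p.Prime) :
    ((Pool.Agent.Results.MP_a1177c_nt.ProgressionCounts.roots (f q a) p).card : ℝ) =
      if p ∣ q then 0 else 1 := by
  classical
  have hmem : ∀ c, c ∈ Pool.Agent.Results.MP_a1177c_nt.ProgressionCounts.roots (f q a) p ↔
      c < p ∧ p ∣ a + q * c := by
    intro c
    unfold Pool.Agent.Results.MP_a1177c_nt.ProgressionCounts.roots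
    rw [mem_filter, mem_range]
    constructor
    · rintro ⟨h1, i, h2⟩
      exact ⟨h1, (dvd_f q a c p i).1 h2⟩
    · rintro ⟨h1, h2⟩
      exact ⟨h1, 0, (dvd_f q a c p 0).2 h2⟩
  by_cases hpq : p ∣ q
  · rw [if_pos hpq]
    have h1 : Pool.Agent.Results.MP_a1177c_nt.ProgressionCounts.roots (f q a) p = ∅ := by
      rw [eq_empty_iff_forall_notMem]
      intro c hc
      obtain ⟨_, h2⟩ := (hmem c).1 hc
      have h3 : p ∣ a := (Nat.dvd_add_left (hpq.mul_right c)).1 h2
      have h4 := Nat.dvd_gcd h3 hpq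
      rw [Nat.Coprime.gcd_eq_one ha] at h4
      exact hp.one_lt.ne' (Nat.dvd_one.1 h4)
    rw [h1, card_empty, Nat.cast_zero]
  · rw [if_neg hpq]
    have := Fact.mk hp
    have hq0 : (q : ZMod p) ≠ 0 := by
      rw [Ne, ZMod.natCast_eq_zero_iff]
      exact hpq
    have h1 : Pool.Agent.Results.MP_a1177c_nt.ProgressionCounts.roots (f q a) p =
        {(-(a : ZMod p) * (q : ZMod p)⁻¹).val} := by
      ext c
      rw [hmem, mem_singleton]
      constructor
      · rintro ⟨h1, h2⟩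
        have h3 : ((a + q * c : ℕ) : ZMod p) = 0 := (ZMod.natCast_eq_zero_iff _ _).2 h2
        push_cast at h3
        have h4 : (c : ZMod p) = -(a : ZMod p) * (q : ZMod p)⁻¹ := by
          field_simp
          linear_combination h3
        rw [← h4, ZMod.val_natCast, Nat.mod_eq_of_lt h1]
      · rintro rfl
        refine ⟨ZMod.val_lt _, ?_⟩
        rw [← ZMod.natCast_eq_zero_iff]
        push_cast
        rw [ZMod.natCast_zmod_val]
        field_simp
        ring
    rw [h1, card_singleton, Nat.cast_one]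

lemma V_f {q a : ℕ} (ha : a.Coprime q) (X : ℕ) :
    Pool.Agent.Results.MP_a1177c_nt.ProgressionCounts.V (f q a) X = V q X := by
  have h1 : V q X = ∏ p ∈ (Ioc 0 X).filter Nat.Prime, if ¬ p ∣ q then (1 - 1 / (p : ℝ)) else 1 := by
    unfold V
    rw [← filter_filter, prod_filter]
  rw [h1]
  unfold Pool.Agent.Results.MP_a1177c_nt.ProgressionCounts.V
  apply prod_congr rfl
  intro p hp
  rw [card_roots ha (mem_filter.1 hp).2]
  by_cases hpq : p ∣ q
  · rw [if_pos hpq, if_neg (not_not.2 hpq), zero_div, sub_zero]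
  · rw [if_neg hpq, if_pos hpq]

/-- upper bound for `V` -/
theorem V_le : ∃ C : ℝ, 0 < C ∧ ∀ q X : ℕ, 1 ≤ q → 2 ≤ X →
    V q X ≤ C * (q / (q.totient * Real.log X)) := by
  classical
  obtain ⟨c, C, hc, hC, h⟩ := Pool.Agent.Y843.HG.V1_bounds
  refine ⟨C, hC, fun q X hq hX => ?_⟩
  have h1 := (h X hX).2
  have hl : 0 < Real.log X := Real.log_pos (by exact_mod_cast (show 1 < X by omega))
  have hφ : (0 : ℝ) < q.totient := by exact_mod_cast Nat.totient_pos.2 hq
  have hq0 : (0 : ℝ) < q := by exact_mod_cast hq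
  have hfac : ∀ p : ℕ, p.Prime → 0 ≤ 1 - 1 / (p : ℝ) ∧ 1 - 1 / (p : ℝ) ≤ 1 := by
    intro p hp
    have := Pool.Agent.Y843.HG.fac1 hp
    constructor
    · linarith [this.1]
    · exact this.2
  obtain ⟨T, hT⟩ : ∃ T : ℝ, T = ∏ p ∈ (Ioc 0 X).filter (fun p => p.Prime ∧ p ∣ q), (1 - 1 / (p : ℝ)) :=
    ⟨_, rfl⟩
  have h2 : Pool.Agent.Y843.HG.V1 X = V q X * T := by
    have e1 : Pool.Agent.Y843.HG.V1 X = ∏ p ∈ (Ioc 0 X).filter Nat.Prime, (1 - 1 / (p : ℝ)) := rfl
    rw [e1, ← prod_filter_mul_prod_filter_not ((Ioc 0 X).filter Nat.Prime) (fun p => ¬ p ∣ q),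
      filter_filter, filter_filter, hT]
    unfold V
    congr 1
    apply prod_congr _ (fun _ _ => rfl)
    apply filter_congr
    intro p _
    rw [not_not]
  have h3 : (q.totient : ℝ) / q ≤ T := by
    have e1 : (q.totient : ℝ) = q * ∏ p ∈ q.primeFactors, (1 - 1 / (p : ℝ)) := by
      have e2 := congrArg (fun z : ℚ => (z : ℝ)) (Nat.totient_eq_mul_prod_factors q)
      push_cast at e2
      rw [e2]
      congr 1
      apply prod_congr rfl
      intro p _
      rw [one_div]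
    rw [e1, mul_comm, mul_div_assoc, div_self hq0.ne', mul_one, hT]
    have hsub : (Ioc 0 X).filter (fun p => p.Prime ∧ p ∣ q) ⊆ q.primeFactors := by
      intro p hp
      rw [mem_filter] at hp
      exact Nat.mem_primeFactors.2 ⟨hp.2.1, hp.2.2, by omega⟩
    rw [← prod_sdiff hsub]
    have e3 : ∏ p ∈ q.primeFactors \ (Ioc 0 X).filter (fun p => p.Prime ∧ p ∣ q), (1 - 1 / (p : ℝ)) ≤ 1 :=
      prod_le_one (fun p hp => (hfac p (Nat.prime_of_mem_primeFactors (mem_sdiff.1 hp).1)).1)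
        (fun p hp => (hfac p (Nat.prime_of_mem_primeFactors (mem_sdiff.1 hp).1)).2)
    have e4 : 0 ≤ ∏ p ∈ (Ioc 0 X).filter (fun p => p.Prime ∧ p ∣ q), (1 - 1 / (p : ℝ)) :=
      prod_nonneg (fun p hp => (hfac p (mem_filter.1 hp).2.1).1)
    calc _ ≤ 1 * ∏ p ∈ (Ioc 0 X).filter (fun p => p.Prime ∧ p ∣ q), (1 - 1 / (p : ℝ)) :=
          mul_le_mul_of_nonneg_right e3 e4
      _ = _ := one_mul _
  have h4 : 0 ≤ V q X := by
    unfold V
    exact prod_nonneg (fun p hp => (hfac p (mem_filter.1 hp).2.1).1)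
  have h5 : V q X * ((q.totient : ℝ) / q) ≤ C / Real.log X :=
    (mul_le_mul_of_nonneg_left h3 h4).trans (h2 ▸ h1)
  have h6 : V q X = V q X * ((q.totient : ℝ) / q) * (q / q.totient) := by
    field_simp
  rw [h6]
  calc V q X * ((q.totient : ℝ) / q) * (q / q.totient) ≤ C / Real.log X * (q / q.totient) :=
        mul_le_mul_of_nonneg_right h5 (by positivity)
    _ = C * (q / (q.totient * Real.log X)) := by
        field_simp

/-- the classes contain few primes outside of `P` -/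
theorem piAP_le {N q a : ℕ} (hq : 1 ≤ q) (ha : a < q) : piAP N q a ≤ (P q a (N / q)).card + 1 := by
  classical
  have hmod : ∀ p : ℕ, p ≡ a [MOD q] → a + q * (p / q) = p := by
    intro p hp
    have h1 : p % q = a := by
      have h2 : p % q = a % q := hp
      rw [h2, Nat.mod_eq_of_lt ha]
    have h3 := Nat.mod_add_div p q
    omega
  have h1 : (Icc 1 N).filter (fun p => p.Prime ∧ p ≡ a [MOD q]) ⊆
      insert a ((P q a (N / q)).image (fun n => a + q * n)) := by
    intro p hp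
    rw [mem_filter, mem_Icc] at hp
    rw [mem_insert, mem_image]
    have h2 := hmod p hp.2.2
    rcases Nat.eq_zero_or_pos (p / q) with h3 | h3
    · left
      rw [h3] at h2
      omega
    · right
      refine ⟨p / q, ?_, h2⟩
      unfold P
      rw [mem_filter, mem_Icc, h2]
      exact ⟨⟨h3, Nat.div_le_div_right hp.1.2⟩, hp.2.1⟩
  unfold piAP
  calc _ ≤ _ := card_le_card h1
    _ ≤ _ := card_insert_le _ _
    _ ≤ _ := Nat.add_le_add_right card_image_le 1

/-- the sum over the bad moduli -/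
theorem bad_sum (δ : ℝ) (hδ : δ < 1 / 2) (A : ℕ) : ∃ N₀ : ℕ, ∀ N : ℕ, N₀ ≤ N →
    ∑ q ∈ bad δ N, 1 / (q.totient : ℝ) ≤ 1 / Real.log N ^ A := by
  classical
  obtain ⟨C, hC, h⟩ := Pool.Agent.H442R2.KF.bv δ hδ (A + 2)
  obtain ⟨n₁, h1⟩ := Pool.Agent.Y843.HG.pi_low
  have e3 := (tendsto_natCast_atTop_atTop (R := ℝ)).eventually
    (Real.tendsto_log_atTop.eventually (Filter.eventually_ge_atTop (4 * C + 1)))
  rw [Filter.eventually_atTop] at e3
  obtain ⟨n₂, h2⟩ := e3
  refine ⟨max (max n₁ n₂) 3, ?_⟩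
  intro N hN
  have hN3 : 3 ≤ N := by omega
  have hNr : (0 : ℝ) < N := by exact_mod_cast (show 0 < N by omega)
  have hl : 4 * C + 1 ≤ Real.log N := h2 N (by omega)
  have hl0 : 0 < Real.log N := by linarith
  have hpi : (N : ℝ) / (2 * Real.log N) ≤ (Pool.Agent.H442R2.KF.piN N : ℝ) := h1 N (by omega)
  -- choice of the classes
  have hch : ∀ q : ℕ, ∃ a : ℕ, (1 ≤ q → a.Coprime q) ∧ (q ∈ bad δ N →
      (piAP N q a : ℝ) < N / (4 * (q.totient * Real.log N))) := by
    intro q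
    by_cases hq : q ∈ bad δ N
    · have h3 := hq
      unfold bad at h3
      rw [mem_filter] at h3
      obtain ⟨a, ha, hlt⟩ := h3.2
      exact ⟨a, fun _ => ha, fun _ => hlt⟩
    · exact ⟨1, fun _ => Nat.coprime_one_left q, fun h => absurd h hq⟩
  choose a ha1 ha2 using hch
  have h3 := h N hN3 a (fun d hd => ha1 d hd)
  have h4 : ∀ q ∈ bad δ N, N / (4 * Real.log N) * (1 / (q.totient : ℝ)) ≤
      |Pool.Agent.H442R2.KF.Er N q (a q)| := by
    intro q hq
    have hlt := ha2 q hq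
    have hq1 : 1 ≤ q := by
      unfold bad at hq
      exact (mem_Icc.1 (mem_filter.1 hq).1).1
    have hφ : (0 : ℝ) < q.totient := by exact_mod_cast Nat.totient_pos.2 hq1
    refine le_trans ?_ (neg_le_abs _)
    have e1 : Pool.Agent.H442R2.KF.Er N q (a q) =
        (piAP N q (a q) : ℝ) - (Pool.Agent.H442R2.KF.piN N : ℝ) / (q.totient : ℝ) := rfl
    have e2 : (N : ℝ) / (2 * Real.log N) / q.totient ≤
        (Pool.Agent.H442R2.KF.piN N : ℝ) / (q.totient : ℝ) := div_le_div_of_nonneg_right hpi hφ.le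
    have e4 : (N : ℝ) / (2 * Real.log N) / q.totient = 2 * (N / (4 * (q.totient * Real.log N))) := by
      field_simp
      ring
    have e5 : (N : ℝ) / (4 * Real.log N) * (1 / (q.totient : ℝ)) = N / (4 * (q.totient * Real.log N)) := by
      field_simp
    rw [e1, e5]
    linarith
  have hsub : bad δ N ⊆ Icc 1 ⌊(N : ℝ) ^ δ⌋₊ := by
    unfold bad
    exact filter_subset _ _
  have h5 : N / (4 * Real.log N) * ∑ q ∈ bad δ N, 1 / (q.totient : ℝ) ≤ C * (N / Real.log N ^ (A + 2)) := by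
    rw [mul_sum]
    refine (sum_le_sum h4).trans (le_trans ?_ h3)
    exact sum_le_sum_of_subset_of_nonneg hsub (fun _ _ _ => abs_nonneg _)
  have h6 : ∑ q ∈ bad δ N, 1 / (q.totient : ℝ) ≤ C * (N / Real.log N ^ (A + 2)) / (N / (4 * Real.log N)) := by
    rw [le_div_iff₀ (by positivity), mul_comm]
    exact h5
  refine h6.trans ?_
  have e6 : C * (N / Real.log N ^ (A + 2)) / (N / (4 * Real.log N)) = 4 * C / Real.log N * (1 / Real.log N ^ A) := by
    rw [pow_add]
    field_simp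
  rw [e6]
  have e7 : 4 * C / Real.log N ≤ 1 := by
    rw [div_le_one hl0]
    linarith
  calc 4 * C / Real.log N * (1 / Real.log N ^ A) ≤ 1 * (1 / Real.log N ^ A) :=
        mul_le_mul_of_nonneg_right e7 (by positivity)
    _ = _ := one_mul _

/-- the good moduli -/
theorem good (δ : ℝ) (hδ0 : 0 < δ) (hδ : δ < 1 / 2) (k : ℕ) (hk : 1 ≤ k) (η : ℝ) (hη : 0 < η) :
    ∃ c C : ℝ, 0 < c ∧ 0 < C ∧ ∃ B N₀ : ℕ, ∀ N : ℕ, N₀ ≤ N → ∀ q a : ℕ, (q : ℝ) ≤ (N : ℝ) ^ δ →
      q ∉ bad δ N → a < q → a.Coprime q → ∀ D : ℕ, Real.log N ^ B ≤ D → D ≤ N / q →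
      ∀ S : Finset ℕ, S ⊆ P q a (N / q) → η * (P q a (N / q)).card ≤ S.card →
        c * ((N / q : ℕ) * D * V q (N / q) ^ k) ≤ AP k D S ∧
          (AP k D S : ℝ) ≤ C * ((N / q : ℕ) * D * V q (N / q) ^ k) := by
  classical
  obtain ⟨C₁, hC₁, hV⟩ := V_le
  obtain ⟨C, hC, B, x₁, h1⟩ := Pool.Agent.Results.MP_a1177c_nt.ProgressionCounts.up 1 k hk 1 le_rfl
  obtain ⟨c, hc, B', x₂, h2⟩ := Pool.Agent.Results.MP_a1177c_nt.ProgressionCounts.dn 1 k hk 1 le_rfl
    (η / (64 * C₁)) (by positivity)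
  have e1 := ((tendsto_rpow_atTop (show (0 : ℝ) < 1 / 4 by norm_num)).comp
    (tendsto_natCast_atTop_atTop (R := ℝ))).eventually
      (Filter.eventually_ge_atTop ((x₁ : ℝ) + x₂ + 3))
  have e2 : ∀ᶠ x : ℝ in Filter.atTop, 8 * Real.log x ≤ x ^ (1 / 2 : ℝ) := by
    have h3 := (isLittleO_log_rpow_atTop (show (0 : ℝ) < 1 / 2 by norm_num)).bound
      (show (0 : ℝ) < 1 / 8 by norm_num)
    filter_upwards [h3, Filter.eventually_ge_atTop 1] with x hx hx1
    rw [Real.norm_of_nonneg (Real.log_nonneg hx1),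
      Real.norm_of_nonneg (Real.rpow_nonneg (by linarith) _)] at hx
    linarith
  have e3 := (tendsto_natCast_atTop_atTop (R := ℝ)).eventually e2
  rw [Filter.eventually_atTop] at e1 e3
  obtain ⟨n₁, g1⟩ := e1
  obtain ⟨n₂, g2⟩ := e3
  refine ⟨c, C, hc, hC, max B B', max (max n₁ n₂) 3, ?_⟩
  intro N hN q a hqδ hqb haq ha D hD hDX S hS hSc
  have hN3 : 3 ≤ N := by omega
  have hN1 : (1 : ℝ) ≤ N := by exact_mod_cast (show 1 ≤ N by omega)
  have hN0 : (0 : ℝ) < N := by linarith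
  have hq : 1 ≤ q := by omega
  have hq0 : (0 : ℝ) < q := by exact_mod_cast hq
  have hφ : (0 : ℝ) < q.totient := by exact_mod_cast Nat.totient_pos.2 hq
  have hl1 := Pool.Agent.Y843.AC.log_one hN3
  have hl0 : 0 < Real.log N := by linarith
  have g3 : (x₁ : ℝ) + x₂ + 3 ≤ (N : ℝ) ^ (1 / 4 : ℝ) := g1 N (by omega)
  have g4 : 8 * Real.log N ≤ (N : ℝ) ^ (1 / 2 : ℝ) := g2 N (by omega)
  have hsq : (N : ℝ) ^ (1 / 2 : ℝ) = (N : ℝ) ^ (1 / 4 : ℝ) * (N : ℝ) ^ (1 / 4 : ℝ) := by
    rw [← Real.rpow_add hN0]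
    norm_num
  have hsq2 : (N : ℝ) = (N : ℝ) ^ (1 / 2 : ℝ) * (N : ℝ) ^ (1 / 2 : ℝ) := by
    rw [← Real.rpow_add hN0]
    norm_num
  have hqh : (q : ℝ) ≤ (N : ℝ) ^ (1 / 2 : ℝ) :=
    hqδ.trans (Real.rpow_le_rpow_of_exponent_le hN1 hδ.le)
  have hh0 : 0 < (N : ℝ) ^ (1 / 2 : ℝ) := by positivity
  have hx1 : (0 : ℝ) ≤ x₁ := Nat.cast_nonneg _
  have hx2 : (0 : ℝ) ≤ x₂ := Nat.cast_nonneg _
  obtain ⟨X, hX⟩ : ∃ X : ℕ, X = N / q := ⟨_, rfl⟩
  rw [← hX] at hDX hS hSc ⊢
  have hXu : (X : ℝ) ≤ N / q := by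
    rw [hX]
    exact Nat.cast_div_le
  have hXl : (N : ℝ) / q < X + 1 := by
    rw [div_lt_iff₀ hq0, mul_comm]
    have := Nat.lt_mul_div_succ N hq
    rw [← hX] at this
    exact_mod_cast this
  have hNq : (N : ℝ) ^ (1 / 2 : ℝ) ≤ N / q := by
    rw [le_div_iff₀ hq0]
    calc (N : ℝ) ^ (1 / 2 : ℝ) * q ≤ (N : ℝ) ^ (1 / 2 : ℝ) * (N : ℝ) ^ (1 / 2 : ℝ) :=
          mul_le_mul_of_nonneg_left hqh hh0.le
      _ = N := hsq2.symm
  have hX4 : (N : ℝ) ^ (1 / 4 : ℝ) ≤ X := by nlinarith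
  have hXx : max x₁ x₂ + 3 ≤ X := by
    have h5 : ((x₁ + x₂ + 3 : ℕ) : ℝ) ≤ X := by push_cast; linarith
    have h6 : x₁ + x₂ + 3 ≤ X := by exact_mod_cast h5
    omega
  have hXN : (X : ℝ) ≤ N := by
    have : X ≤ N := by rw [hX]; exact Nat.div_le_self _ _
    exact_mod_cast this
  have hX0 : (0 : ℝ) < X := by exact_mod_cast (show 0 < X by omega)
  have hlX : Real.log N / 4 ≤ Real.log X := by
    have h5 := Real.log_le_log (by positivity) hX4
    rw [Real.log_rpow hN0] at h5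
    linarith
  have hlXN : Real.log X ≤ Real.log N := Real.log_le_log hX0 hXN
  have hlX0 : 0 ≤ Real.log X := by linarith
  -- the number of the primes
  have hP1 : (N : ℝ) / (4 * (q.totient * Real.log N)) ≤ (P q a X).card + 1 := by
    by_contra hcon
    rw [not_le] at hcon
    apply hqb
    unfold bad
    rw [mem_filter, mem_Icc]
    refine ⟨⟨hq, Nat.le_floor hqδ⟩, a, ha, ?_⟩
    have h5 := piAP_le (N := N) hq haq
    rw [← hX] at h5
    have h6 : (piAP N q a : ℝ) ≤ (P q a X).card + 1 := by exact_mod_cast h5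
    linarith
  have hφq : (q.totient : ℝ) ≤ q := by exact_mod_cast Nat.totient_le q
  have hone : 1 ≤ (N : ℝ) / (8 * (q.totient * Real.log N)) := by
    rw [le_div_iff₀ (by positivity), one_mul]
    calc 8 * ((q.totient : ℝ) * Real.log N) = (q.totient : ℝ) * (8 * Real.log N) := by ring
      _ ≤ (N : ℝ) ^ (1 / 2 : ℝ) * (N : ℝ) ^ (1 / 2 : ℝ) :=
          mul_le_mul (hφq.trans hqh) g4 (by positivity) hh0.le
      _ = N := hsq2.symm
  have hP2 : (N : ℝ) / (8 * (q.totient * Real.log N)) ≤ (P q a X).card := by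
    have h5 : (N : ℝ) / (4 * (q.totient * Real.log N)) = 2 * (N / (8 * (q.totient * Real.log N))) := by
      field_simp
      ring
    linarith
  -- the expected number
  have hE : η / (64 * C₁) * (X * V q X) ≤ S.card := by
    refine le_trans ?_ hSc
    have h5 : V q X ≤ C₁ * (4 * (q / (q.totient * Real.log N))) := by
      refine (hV q X hq (by omega)).trans (mul_le_mul_of_nonneg_left ?_ hC₁.le)
      have h6 : (q : ℝ) / (q.totient * Real.log X) ≤ q / (q.totient * (Real.log N / 4)) := by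
        apply div_le_div_of_nonneg_left hq0.le (by positivity)
        exact mul_le_mul_of_nonneg_left hlX hφ.le
      refine h6.trans (le_of_eq ?_)
      field_simp
    have h7 : (X : ℝ) * V q X ≤ (N / q) * (C₁ * (4 * (q / (q.totient * Real.log N)))) :=
      (mul_le_mul_of_nonneg_left h5 hX0.le).trans (mul_le_mul_of_nonneg_right hXu (by positivity))
    have h8 : (N : ℝ) / q * (C₁ * (4 * (q / (q.totient * Real.log N)))) =
        32 * C₁ * (N / (8 * (q.totient * Real.log N))) := by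
      field_simp
      ring
    calc η / (64 * C₁) * (X * V q X) ≤ η / (64 * C₁) * (32 * C₁ * (N / (8 * (q.totient * Real.log N)))) :=
          mul_le_mul_of_nonneg_left (h7.trans h8.le) (by positivity)
      _ = η / 2 * (N / (8 * (q.totient * Real.log N))) := by
          field_simp
          ring
      _ ≤ η * (P q a X).card := by
          have h9 : 0 ≤ (N : ℝ) / (8 * (q.totient * Real.log N)) := by positivity
          nlinarith
  have hSX : S ⊆ Ioc 0 (0 + X) := by
    intro n hn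
    have h5 := hS hn
    unfold P at h5
    rw [mem_filter, mem_Icc] at h5
    rw [mem_Ioc]
    omega
  have hSP : ∀ n ∈ S, (∀ i, (Pool.Agent.Results.MP_a1177c_nt.ProgressionCounts.val (f q a i) n).natAbs.Prime) ∨
      Pool.Agent.Results.MP_a1177c_nt.ProgressionCounts.Rough 1 (f q a) X n := by
    intro n hn
    left
    intro i
    rw [val_f, Int.natAbs_natCast]
    have h5 := hS hn
    unfold P at h5
    exact (mem_filter.1 h5).2
  have k1 := (h2 X (by omega) (f q a) (possible hq ha) 0 D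
    ((pow_le_pow_left₀ hlX0 hlXN _).trans ((pow_le_pow_right₀ hl1 (le_max_right _ _)).trans hD)) hDX S hSX hSP).1
    (by rw [V_f ha]; exact hE)
  have k2 := h1 X (by omega) (f q a) (possible hq ha) 0 D
    ((pow_le_pow_left₀ hlX0 hlXN _).trans ((pow_le_pow_right₀ hl1 (le_max_left _ _)).trans hD)) S hSX hSP
  rw [V_f ha] at k1 k2
  exact ⟨k1, k2⟩

/-- **The exact order of the number of progressions of primes in almost all residue classes.**
Let `0 < δ < 1/2`. For all `N` let `bad δ N` be the set of the moduli `q ≤ N ^ δ` for which some reduced class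
contains less than a quarter of the expected number `N / (φ(q) log N)` of primes up to `N`. Then
`∑_{q bad} 1 / φ(q) ≤ log ^ (-A) N` for every `A` and all `N ≥ N₀(A)`, and for all `k ≥ 1` and `η > 0` there are
`c, C > 0` and `B` such that for all large `N`, all other moduli `q ≤ N ^ δ`, all reduced classes `a` modulo
`q`, all `D` between `log ^ B N` and `N / q`, and EVERY set of primes `a + q n`, `1 ≤ n ≤ N / q`, which contains
at least the proportion `η` of all of them: the number of the progressions of `k` elements of the set with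
differences `q d`, `d ≤ D`, is between `c (N/q) D V ^ k` and `C (N/q) D V ^ k`, where `V` is the product of
`1 - 1/p` over the primes `p ≤ N / q` not dividing `q`. -/
theorem result (δ : ℝ) (hδ0 : 0 < δ) (hδ : δ < 1 / 2) :
    (∀ A : ℕ, ∃ N₀ : ℕ, ∀ N : ℕ, N₀ ≤ N → ∑ q ∈ bad δ N, 1 / (q.totient : ℝ) ≤ 1 / Real.log N ^ A) ∧
    ∀ k : ℕ, 1 ≤ k → ∀ η : ℝ, 0 < η → ∃ c C : ℝ, 0 < c ∧ 0 < C ∧ ∃ B N₀ : ℕ, ∀ N : ℕ, N₀ ≤ N →
      ∀ q a : ℕ, (q : ℝ) ≤ (N : ℝ) ^ δ → q ∉ bad δ N → a < q → a.Coprime q → ∀ D : ℕ,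
      Real.log N ^ B ≤ D → D ≤ N / q → ∀ S : Finset ℕ, S ⊆ P q a (N / q) →
      η * (P q a (N / q)).card ≤ S.card →
        c * ((N / q : ℕ) * D * V q (N / q) ^ k) ≤ AP k D S ∧
          (AP k D S : ℝ) ≤ C * ((N / q : ℕ) * D * V q (N / q) ^ k) :=
  ⟨fun A => bad_sum δ hδ A, fun k hk η hη => good δ hδ0 hδ k hk η hη⟩

end Pool.Agent.Results.MP_9cfc0a_nt.ProgressionCounts
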