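import Pool.Agent.Y816.PD.UniB

set_option autoImplicit false

/-!
# Almost primes `n ≡ a` modulo `q` in short intervals `(x, x + y)` with restricted digits of `(n - n₀) / q`

For all `q ≥ 1`, `y` with `x ≤ (y / q) ^ D`, and every `n₀ ∈ (x, x + q]` coprime to `q`, the numbers `n₀ + q j`,
`j < b ^ K`, are considered, where the `i`-th digit of `j` in base `b` belongs to an arbitrary set `A i` for all
`i < K`; `K` is the integer part of `log_b ((y - q) / q)`.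
-/

namespace Pool.Agent.Results.MP_9cfc0a_nt.RestrictedDigits

open Finset Filter
open Pool.Agent.Y816.PD (NA ND AA)

/-- **Almost primes with restricted digits in progressions in short intervals.** -/
theorem result (D : ℕ) :
    ∃ c : ℝ, 0 < c ∧ ∃ r₀ : ℕ, 2 ≤ r₀ ∧ ∀ r : ℕ, r₀ ≤ r → ∀ b : ℕ, 2 ≤ b → ∃ κ C : ℝ, 0 < κ ∧ 0 < C ∧
      ∀ᶠ x : ℕ in atTop, ∀ q y : ℕ, 1 ≤ q → q ≤ x → x ≤ (y / q) ^ D →
        ∀ n₀ : ℕ, x < n₀ → n₀ ≤ x + q → n₀.Coprime q → ∀ K : ℕ, K = Nat.log b ((y - q) / q) →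
        ∀ A : ℕ → Finset ℕ, (∀ i < K, A i ⊆ range b) → (b : ℝ) ^ K ≤ Real.exp (c * K) * NA K A →
        ((∃ d ∈ A 0, (n₀ + q * d).Coprime b) →
          κ * ((q : ℝ) / Nat.totient q) * NA K A / K ≤
            ND b K A {j | (x < n₀ + q * j ∧ n₀ + q * j < x + y) ∧ j ∈ AA q n₀ r (b ^ K)}) ∧
        (ND b K A {j | (n₀ + q * j).Prime} : ℝ) ≤ C * ((q : ℝ) / Nat.totient q) * NA K A / K := by
  obtain ⟨c, hc, r₀, hr₀, h⟩ := Pool.Agent.Y816.PD.uni_ap (3 * D + 1)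
  refine ⟨c, hc, r₀, hr₀, fun r hr b hb => ?_⟩
  obtain ⟨κ, C, hκ, hC, h1⟩ := h r hr b hb
  refine ⟨κ, C, hκ, hC, ?_⟩
  obtain ⟨K0, hK0⟩ := eventually_atTop.1 h1
  have hb0 : 0 < b := by omega
  filter_upwards [eventually_ge_atTop ((b ^ (K0 + 3)) ^ D + 1)] with x hx q y hq hqx hxy n₀ hn1 hn2 hcop K hK A hA
    hprod
  have hqpos : 0 < q := hq
  have hyq : b ^ (K0 + 3) < y / q := by
    by_contra hcon
    push Not at hcon
    have := Nat.pow_le_pow_left hcon D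
    omega
  have hsub : (y - q) / q = y / q - 1 := by
    have := Nat.sub_mul_div_of_le y q 1 (by
      rw [mul_one]
      by_contra hcon
      push Not at hcon
      rw [Nat.div_eq_of_lt hcon] at hyq
      omega)
    rwa [mul_one] at this
  have h4 : 4 ≤ b ^ (K0 + 2) := by
    calc 4 = 2 ^ 2 := by norm_num
      _ ≤ b ^ 2 := Nat.pow_le_pow_left hb 2
      _ ≤ b ^ (K0 + 2) := Nat.pow_le_pow_right hb0 (by omega)
  have hy : b ^ (K0 + 2) ≤ (y - q) / q := by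
    have h2 : b ^ (K0 + 3) = b * b ^ (K0 + 2) := by ring
    have h3 : 2 * b ^ (K0 + 2) ≤ b * b ^ (K0 + 2) := Nat.mul_le_mul_right _ hb
    omega
  have hKK : K0 + 2 ≤ K := by
    rw [hK]
    exact Nat.le_log_of_pow_le (by omega) hy
  have hb1 : b ^ K ≤ (y - q) / q := by
    rw [hK]
    exact Nat.pow_log_le_self _ (by omega)
  have hb2 : (y - q) / q < b ^ (K + 1) := by
    rw [hK]
    exact Nat.lt_pow_succ_log_self (by omega) _
  have hb3 : y / q ≤ b ^ (K + 2) := by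
    have h2 : b ^ (K + 2) = b * b ^ (K + 1) := by ring
    have h3 : 2 * b ^ (K + 1) ≤ b * b ^ (K + 1) := Nat.mul_le_mul_right _ hb
    have h5 : 1 ≤ b ^ (K + 1) := Nat.one_le_pow _ _ hb0
    omega
  have e1 : x ≤ b ^ (3 * D * K) := by
    calc x ≤ (y / q) ^ D := hxy
      _ ≤ (b ^ (K + 2)) ^ D := Nat.pow_le_pow_left hb3 D
      _ = b ^ ((K + 2) * D) := (pow_mul _ _ _).symm
      _ ≤ b ^ (3 * D * K) := Nat.pow_le_pow_right hb0 (by nlinarith [Nat.mul_le_mul_left D (by omega : K + 2 ≤ 3 * K)])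
  have e2 : b ^ ((3 * D + 1) * K) = b ^ (3 * D * K) * b ^ K := by rw [← pow_add]; congr 1; ring
  have e3 : 2 ≤ b ^ K := hb.trans (Nat.le_self_pow (by omega) b)
  have e4 : 2 * b ^ (3 * D * K) ≤ b ^ ((3 * D + 1) * K) := by
    rw [e2, mul_comm]
    exact Nat.mul_le_mul_left _ e3
  obtain ⟨h2, h3⟩ := hK0 K (by omega) q n₀ hq (by omega) (by omega) hcop A hA hprod
  refine ⟨fun hd => (h2 hd).trans (Nat.cast_le.2 ?_), h3⟩
  apply Pool.Agent.Y816.PD.ND_mono'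
  intro j hj hjS
  refine ⟨⟨by omega, ?_⟩, hjS⟩
  have h5 : q * j + q ≤ y - q := by
    calc q * j + q = q * (j + 1) := by ring
      _ ≤ q * ((y - q) / q) := Nat.mul_le_mul_left _ (by omega)
      _ ≤ y - q := Nat.mul_div_le _ _
  omega

end Pool.Agent.Results.MP_9cfc0a_nt.RestrictedDigits
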